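import Pool.Agent.X180.TV.Forms
import Pool.Agent.X180.Abn.Sys1
import Pool.Agent.Y191.GenFib

/-!
Abundance for fibre spaces over towers whose fibres dominate a constant variety: the proof.
-/

set_option autoImplicit false

open FF Pool.Agent.W619.TW Pool.Agent.W619.Y Pool.Agent.Y191
open Pool.Agent.W602.GT (Divisorial)

namespace Pool.Agent.X180.TV

theorem main {v q m Q : ℕ} (hv : 1 ≤ v) (hm : 2 ≤ m) (hQ : 2 * v * m ≤ Q * (m - 1))
    (hq : (v + Q).choose v < q) :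
    ∃ Ψ : MvPolynomial (Fin q × Fin (v + 1)) ℂ, Ψ ≠ 0 ∧
      ∀ ℓ : Fin q → Fin (v + 1) → ℂ, MvPolynomial.eval (fun x => ℓ x.1 x.2) Ψ ≠ 0 →
      ∀ (K : Type) [Field K] [Algebra ℂ K] [Algebra.EssFiniteType ℂ K] (l f : ℕ)
        (E : Fin (l + 1) → IntermediateField ℂ K) (D : Fin (l + 1) → ℕ) (e : Fin l → ℕ),
      Algebra.trdeg ℂ K = (D (Fin.last l) + (f + 1) : ℕ) →
      ∀ b : Fin (v + 1) → K, (∀ i, lf (ℓ i) b ≠ 0) → (∃ j, b j ≠ 0) → E 0 = RF ℂ b → 1 ≤ D 0 →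
      IsTower E D e →
      (∀ P : Place ℂ K, Divisorial (D (Fin.last l) + (f + 1)) P → ∀ (a : ℤ) (μ : Fin q → ℕ),
        OrdData P ℓ b a μ → ∀ i, μ i = 0 ∨ m ≤ μ i) →
      ∀ (L : IntermediateField ℂ K) [Algebra.EssFiniteType ℂ L],
      (∀ x : K, x ∈ L ↔ IsAlgebraic (E (Fin.last l)) x) →
      ∀ {Λ F : Type} [Field Λ] [Field F] [Algebra L Λ] [IsAlgClosure L Λ] [Algebra Λ F]
        [Algebra K F] [IsScalarTower L Λ F] [Algebra ℂ Λ] [Algebra ℂ F] [IsScalarTower ℂ L Λ]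
        [IsScalarTower ℂ Λ F] [IsScalarTower ℂ K F],
      IntermediateField.adjoin Λ (Set.range (algebraMap K F)) = ⊤ →
      ∀ (M : IntermediateField ℂ F) [Algebra.EssFiniteType ℂ M],
      Algebra.trdeg ℂ M = (f + 1 : ℕ) →
      (∀ z : F, IsAlgebraic (IntermediateField.adjoin Λ (M : Set F)) z) → ∀ h : ℕ,
      (KodTr ℂ M (f + 1) h → KodTr ℂ K (D (Fin.last l) + (f + 1)) (D (Fin.last l) + h)) ∧
      (NumLe Λ F (f + 1) (fun _ => False) h →
        NumLe ℂ K (D (Fin.last l) + (f + 1)) (fun _ => False) (D (Fin.last l) + h)) := by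
  obtain ⟨Ψ, hΨ, hgen⟩ := general_fib (n := v) (q := q) hv hm hQ hq
  refine ⟨Ψ, hΨ, ?_⟩
  intro ℓ hℓ K _ _ _ l f E D e hK b hb hb0 hE0 hD0 hT hmult L _ hL Λ F _ _ _ _ _ _ _ _ _ _ _ _ hF
    M _ hM hdom h
  have hVL : E (Fin.last l) ≤ L := fun x hx => (hL x).2 (isAlgebraic_algebraMap (⟨x, hx⟩ :
    E (Fin.last l)))
  have hLalg : ∀ x ∈ L, IsAlgebraic (E (Fin.last l)) x := fun x hx => (hL x).1 hx
  have hLA : L = Pool.Agent.X180.Iso.Acl (E (Fin.last l)) := by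
    ext x
    rw [hL, Pool.Agent.X180.Iso.mem_acl]
  have hΛalg : Algebra.IsAlgebraic L Λ := IsAlgClosure.isAlgebraic
  have hLK : ∀ x : K, IsIntegral L x → ∃ y : L, algebraMap L K y = x := by
    intro x hx
    have h1 : IsAlgebraic (Pool.Agent.X180.Iso.Acl (E (Fin.last l))) x := by
      rw [← hLA]
      exact hx.isAlgebraic
    have h2 : x ∈ L := by
      rw [hLA]
      exact Pool.Agent.X180.Iso.acl_acl h1
    exact ⟨⟨x, h2⟩, rfl⟩
  have hV := (hT.1 (Fin.last l)).2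
  have htrL : Algebra.trdeg ℂ L = D (Fin.last l) := by
    rw [← hV]
    exact Pool.Agent.X180.Abn.trdeg_of_alg hVL hLalg
  refine ⟨fun hk => ?_, fun hnum => ?_⟩
  · have h0 : Pool.Agent.X180.Tow.HasForms (D (Fin.last l) + (f + 1)) {P | True} (fun _ => 0)
        (E (Fin.last l)) (f + 1) h :=
      Pool.Agent.X180.Abn.geo_forms hK (Pool.Agent.X180.Iso.trdeg_rel hK hV) hLalg hF
        (fun z => ((hΛalg.isAlgebraic z).algHom (IsScalarTower.toAlgHom L Λ F))) M hM hdom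
        (Pool.Agent.X180.Abn.kodGe_of_kodTr hk) _
    have h1 := tower_forms hT hK rfl h0
    have hsum : D (Fin.last l) = D 0 + ∑ i, e i :=
      Pool.Agent.X180.TW.dims fun i => (hT.2 i).2.1
    rw [hsum, add_assoc] at hK hmult
    rw [hsum, hE0, add_assoc] at h1
    obtain ⟨M', hM', θ, hθ, hne⟩ := h1
    have h3 := hgen ℓ hℓ K (D 0) (∑ i, e i + (f + 1)) (∑ i, e i + h) hD0 hK b hb hb0
      (by
        rw [← hE0]
        exact (hT.1 0).2) {P | True} (fun _ => 0) (fun _ => 0) (fun _ => 0) (fun _ _ => le_rfl)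
      (fun _ _ => by simp) (fun P _ hPd a μ ho i => by
        rcases hmult P hPd a μ ho i with h4 | h4
        · exact Or.inl h4
        · right
          rw [sub_zero, mul_one]
          exact_mod_cast h4) M' hM' θ hθ hne
    have h4 := Pool.Agent.X180.Abn.kodTr_of_kodGe (Pool.Agent.X180.Iso.kod_of_pairs h3)
    rw [← add_assoc (D 0) (∑ i, e i) (f + 1), ← add_assoc (D 0) (∑ i, e i) h, ← hsum] at h4
    exact h4
  · exact Pool.Agent.Y174.easy_add ‹Algebra.EssFiniteType ℂ L› ‹Algebra.EssFiniteType ℂ K› hF hLK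
      htrL hK hnum

end Pool.Agent.X180.TV
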