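import Pool.Agent.X180.TW.Defs

/-!
Definitions: fibres with many differentials from a constant variety, and towers of three kinds of
fibrations.
-/

set_option autoImplicit false

open FF Pool.Agent.W602.GT Pool.Agent.X180.TW

namespace Pool.Agent.X180.TV

/-- The rational differential forms (of degree 1) of a variety with function field `K`: the linear
functions of the rational vector fields. -/
abbrev RationalForm (K : Type) [Field K] [Algebra ℂ K] : Type := Derivation ℂ K K →ₗ[K] K

/-- The rational vector fields. -/
abbrev VectorField (K : Type) [Field K] [Algebra ℂ K] : Type := Derivation ℂ K K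

/-- `ω` is a regular differential form on the variety of dimension `f` with function field `M`: its
values on vector fields which are regular at a prime divisor are regular there. -/
def IsRegularForm {M : Type} [Field M] [Algebra ℂ M] (f : ℕ) (ω : RationalForm M) : Prop :=
  ∀ u : Place ℂ M, Divisorial f u → ∀ D, DerReg u D → u.Reg (ω D)

section

variable {K' : Type} [Field K'] [Algebra ℂ K']

/-- `ω'` is the pull back of `ω`: if the vector field `G` extends the vector field `D` then the value
of `ω'` at `G` is the value of `ω` at `D`. -/
def IsPullback {M : IntermediateField ℂ K'} (ω : RationalForm M) (ω' : RationalForm K') : Prop :=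
  ∀ (D : VectorField M) (G : VectorField K'),
    (∀ m : M, G (m : K') = ((D m : M) : K')) → ω' G = ((ω D : M) : K')

/-- The value of the exterior product of the forms `ω' (I b)` at the vector fields `G a`. -/
noncomputable def wedge {e r : ℕ} (ω' : Fin r → RationalForm K') (I : Fin e → Fin r)
    (G : Fin e → VectorField K') : K' :=
  (Matrix.of fun a b => ω' (I b) (G a) : Matrix (Fin e) (Fin e) K').det

/-- Let `K'`, `F` and `M` be the function fields of `W'`, `W` and `V`, with maps `W' ⇢ W` and `W' ⇢ V`,
and `L` that of `Z`, `W ⇢ Z`. There are regular 1-forms `ω i` of `V`, with pull backs `ω' i` to `W'`,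
and vector fields `G a` which are tangent to the fibres of `W'` over `Z`, such that `e` of the ratios of
the values of the exterior products of `e` of the forms are algebraically independent over the function
field of `Z`. -/
def IndependentForms {F : Type} [Field F] [Algebra ℂ F] [Algebra F K'] (L : IntermediateField ℂ F)
    (M : IntermediateField ℂ K') (e : ℕ) : Prop :=
  ∃ (f r : ℕ) (ω : Fin r → RationalForm M) (ω' : Fin r → RationalForm K')
    (I : Fin (e + 1) → Fin e → Fin r) (G : Fin e → VectorField K'),
    Algebra.EssFiniteType ℂ M ∧ Algebra.trdeg ℂ M = f ∧
    (∀ i, IsRegularForm f (ω i) ∧ IsPullback (ω i) (ω' i)) ∧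
    (∀ i, ∀ a ∈ L, G i (algebraMap F K' a) = 0) ∧ wedge ω' (I 0) G ≠ 0 ∧
    AlgebraicIndependent L (fun i : Fin e => wedge ω' (I i.succ) G / wedge ω' (I 0) G)

end

/-- Let `F` and `L` be the function fields of varieties `W` and `Z`, with a dominant rational map from
`W` to `Z` of relative dimension `e`. After a generically finite base change `Z' → Z` there is a
rational map from `W ×_Z Z'` to a smooth projective variety `V`, such that `e` of the ratios of the
pull backs of `e`-fold exterior products of regular 1-forms of `V` to the fibres are algebraically
independent over the function field of `Z` (for the fibres which are generically finite covers of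
subvarieties of a constant abelian variety: the Gauss map is generically finite, that is, the
subvarieties are of general type). Here `K'` is the function field of `W ×_Z Z'`, generated by an
element `α` which is algebraic over `L`, and `M` is the function field of `V`. -/
def ManyDifferentials (F : Type) [Field F] [Algebra ℂ F] (L : IntermediateField ℂ F)
    (e : ℕ) : Prop :=
  ∃ (K' : Type) (_ : Field K') (_ : Algebra ℂ K') (_ : Algebra F K') (_ : IsScalarTower ℂ F K')
    (α : K') (M : IntermediateField ℂ K'),
    IsAlgebraic L α ∧ IntermediateField.adjoin F {α} = ⊤ ∧ IndependentForms L M e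

variable {K : Type} [Field K] [Algebra ℂ K]

/-- The tower `W_l ⇢ ... ⇢ W_1 ⇢ W_0`: the `E i` are the function fields of varieties of dimensions
`D i`, each contained in the next one, and the fibres of `W_{i+1}` over `W_i`, of dimension `e i`, are
as in `GeneralTypeFibres`, as in `DominatesConstant` or as in `ManyDifferentials`, for each `i < l`. -/
def IsTower {l : ℕ} (E : Fin (l + 1) → IntermediateField ℂ K) (D : Fin (l + 1) → ℕ)
    (e : Fin l → ℕ) : Prop :=
  (∀ i, Algebra.EssFiniteType ℂ (E i) ∧ Algebra.trdeg ℂ (E i) = D i) ∧
  ∀ i : Fin l, E i.castSucc ≤ E i.succ ∧ D i.succ = D i.castSucc + e i ∧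
    (GeneralTypeFibres (E i.succ) (below (E i.succ) (E i.castSucc)) (D i.succ) (e i) ∨
      DominatesConstant (E i.succ) (below (E i.succ) (E i.castSucc)) (e i) ∨
      ManyDifferentials (E i.succ) (below (E i.succ) (E i.castSucc)) (e i))

end Pool.Agent.X180.TV
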