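import Pool.Agent.X180.TV.Defs
import Pool.Agent.X180.TW.Forms
import Pool.Agent.X180.Iso.Alb2

/-!
Forms for towers of three kinds of fibrations.
-/

set_option autoImplicit false

open FF Pool.Agent.W602.GT Pool.Agent.Y172 Pool.Agent.Y191
open Pool.Agent.X180.TW (GeneralTypeFibres DominatesConstant below)

namespace Pool.Agent.X180.TV

/-- the forms along the fibres with many differentials -/
theorem forms_of_differentials {F : Type} [Field F] [Algebra ℂ F] {d e : ℕ}
    {L : IntermediateField ℂ F} (hL : Algebra.trdeg ℂ L = d)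
    (hE : Algebra.trdeg ℂ F = (d + e : ℕ)) (h : ManyDifferentials F L e) :
    Pool.Agent.X180.Tow.HasForms (d + e)
      {p : Place ℂ F | Divisorial (d + e) p} (fun _ => 0) L e e := by
  obtain ⟨K', _, _, _, _, α, M, hα, htop, f, r, ω, ω', I, G, _, hM, hω, hG, hne, hind⟩ := h
  have hfd : FiniteDimensional F K' := Pool.Agent.X180.Iso.fin_of_top hα htop
  have hk : ∀ i, Pool.Agent.Y172.Kills (G i) (Pool.Agent.Y191.upF K' L) := by
    intro i z hz
    obtain ⟨a, ha, rfl⟩ := Pool.Agent.Y191.mem_upF.1 hz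
    exact hG i a ha
  exact Pool.Agent.X180.Iso.alb_forms hE (Pool.Agent.X180.Iso.trdeg_rel hE hL) hα htop hM
    (fun i => (hω i).1) (fun i => (hω i).2) I (fun i => Pool.Agent.Y172.liftD _ _ (hk i)) hne hind _

/-- the forms along the fibres of the steps of the tower -/
theorem forms_step {F : Type} [Field F] [Algebra ℂ F] {D d e : ℕ}
    {L : IntermediateField ℂ F} (hL : Algebra.trdeg ℂ L = d) (hE : Algebra.trdeg ℂ F = D)
    (hD : D = d + e)
    (h : GeneralTypeFibres F L D e ∨ DominatesConstant F L e ∨ ManyDifferentials F L e) :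
    Pool.Agent.X180.Tow.HasForms (d + e)
      {p : Place ℂ F | Divisorial (d + e) p} (fun _ => 0) L e e := by
  subst hD
  rcases h with h | h | h
  · exact Pool.Agent.X180.TW.forms_of hL hE h
  · exact Pool.Agent.X180.TW.forms_of_dominates hL hE h
  · exact forms_of_differentials hL hE h

/-- **Towers.** -/
theorem tower_forms {K : Type} [Field K] [Algebra ℂ K] {N e' lam' l : ℕ}
    {X : Set (Place ℂ K)} {δ : Place ℂ K → ℝ} {E : Fin (l + 1) → IntermediateField ℂ K}
    {D : Fin (l + 1) → ℕ} {e : Fin l → ℕ} (hT : IsTower E D e) (hN : Algebra.trdeg ℂ K = N)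
    (hNe : N = D (Fin.last l) + e')
    (h0 : Pool.Agent.X180.Tow.HasForms N X δ (E (Fin.last l)) e' lam') :
    Pool.Agent.X180.Tow.HasForms N X δ (E 0) (∑ i, e i + e') (∑ i, e i + lam') :=
  Pool.Agent.X180.Tow.chain (lam := e) hN l E (fun i => (hT.2 i).1)
    (fun i => (hT.1 i.succ).1) D (fun i => (hT.1 i).2) e (fun i => (hT.2 i).2.1) hNe
    (fun i => forms_step (Pool.Agent.X180.Tow.trdeg_dn (hT.2 i).1 (hT.1 _).2) (hT.1 _).2
      (hT.2 i).2.1 (hT.2 i).2.2) h0

end Pool.Agent.X180.TV
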